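import Pool.Agent.H958.RO.Stm

set_option autoImplicit false

/-!
# Project RO: comparabilities near bad vertices are realised near bad vertices
-/

namespace Pool.Agent.H155.RO.Inn

open Finset Pool.Agent.H958.RO
open Pool.Agent.W830.RD (Om gle)

theorem seq_of_gle {n : ℕ} {E : Finset (Fin n × Fin n)} {x z : Fin n} (h : gle E x z) :
    ∃ (j : ℕ) (w : ℕ → Fin n), w 0 = x ∧ w j = z ∧ ∀ i < j, (w i, w (i + 1)) ∈ E := by
  unfold gle at h
  induction h using Relation.ReflTransGen.head_induction_on with
  | refl => exact ⟨0, fun _ => z, rfl, rfl, fun i hi => absurd hi (Nat.not_lt_zero i)⟩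
  | @head a b hab _ ih =>
    obtain ⟨j, w, h0, hj, hw⟩ := ih
    refine ⟨j + 1, fun i => if i = 0 then a else w (i - 1), by simp, by simpa using hj, ?_⟩
    intro i hi
    by_cases h : i = 0
    · subst h
      simp only [if_true, zero_add, one_ne_zero, if_false, Nat.sub_self]
      rw [h0]
      exact hab
    · have h1 := hw (i - 1) (by omega)
      show ((if i = 0 then a else w (i - 1)), (if i + 1 = 0 then a else w (i + 1 - 1))) ∈ E
      rw [if_neg h, if_neg (by omega)]
      have h2 : i - 1 + 1 = i + 1 - 1 := by omega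
      rw [h2] at h1
      exact h1

theorem walk_back {n : ℕ} {E : Finset (Fin n × Fin n)} (hE : E ⊆ Om n) {w : ℕ → Fin n} {j : ℕ}
    (hw : ∀ i < j, (w i, w (i + 1)) ∈ E) :
    ∀ i ≤ j, ∃ p : (GG E).Walk (w i) (w 0), p.length = i := by
  intro i
  induction i with
  | zero =>
    intro _
    exact ⟨SimpleGraph.Walk.nil, rfl⟩
  | succ i ih =>
    intro hi
    obtain ⟨p, hp⟩ := ih (by omega)
    have h1 := hw i (by omega)
    have h2 : w i < w (i + 1) := (mem_filter.1 (hE h1)).2
    have h3 : (GG E).Adj (w (i + 1)) (w i) := ⟨h2.ne', Or.inr h1⟩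
    exact ⟨SimpleGraph.Walk.cons h3 p, by rw [SimpleGraph.Walk.length_cons, hp]⟩

theorem mem_NN {n : ℕ} {E : Finset (Fin n × Fin n)} {l D r : ℕ} {v : Fin n} :
    v ∈ NN E l D r ↔ ∃ b, Bad E l D b ∧ ∃ p : (GG E).Walk v b, p.length ≤ r := by
  classical
  unfold NN
  simp only [mem_filter, mem_univ, true_and]

theorem main : Pool.Agent.H958.RO.S_INN := by
  intro n E l D x z hE hl hx hz hxz
  obtain ⟨j, w, h0, hj, hw⟩ := seq_of_gle hxz
  have key : ∀ i ≤ j, w i ∈ NN E l D (3 * l) := by
    intro i hi
    rcases Nat.lt_or_ge j l with hjl | hjl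
    · subst h0
      obtain ⟨b, hb, p, hp⟩ := mem_NN.1 hx
      obtain ⟨q, hq⟩ := walk_back hE hw i hi
      refine mem_NN.2 ⟨b, hb, q.append p, ?_⟩
      rw [SimpleGraph.Walk.length_append, hq]
      omega
    · refine mem_NN.2 ⟨w i, Or.inr ⟨fun t => w (min i (j - l) + t), ?_,
        i - min i (j - l), by omega, ?_⟩, SimpleGraph.Walk.nil, by simp⟩
      · intro t ht
        have h1 := hw (min i (j - l) + t) (by omega)
        rw [add_assoc] at h1
        exact h1
      · show w (min i (j - l) + (i - min i (j - l))) = w i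
        congr 1
        omega
  have key2 : ∀ i ≤ j, gle (res E (NN E l D (3 * l))) (w 0) (w i) := by
    intro i
    induction i with
    | zero => intro _; exact Relation.ReflTransGen.refl
    | succ i ih =>
      intro hi
      refine Relation.ReflTransGen.tail (ih (by omega)) ?_
      unfold res
      rw [mem_filter]
      exact ⟨hw i (by omega), key i (by omega), key (i + 1) hi⟩
  have h1 := key2 j le_rfl
  rw [h0, hj] at h1
  exact h1

end Pool.Agent.H155.RO.Inn
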